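import Pool.Agent.ZP3.StmtsP
import Pool.Agent.Helper92_ZPT.ND

/-!
Squad ZP3, row N3B: no boundary point with three infinite coordinates implies `NoTriple`.
-/

set_option autoImplicit false

namespace Pool.Agent.ZP3.H81

open Polynomial Pool.Agent.ZPT Pool.Agent.ZP3 Pool.Agent.ZPT.H92

noncomputable section

/-- the argument of row ND for one pair of coordinates -/
theorem core {n : ℕ} (P : Ideal (MvPolynomial (Fin n) ℂ)) (hP : P.IsPrime) (i j : Fin n)
    (hi : ¬ ∃ κ : ℂ, C (X - C κ) ∈ P.comap (sub2 i j))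
    (hfin : ∀ u : ℂ, {z : ℂ | ∃ x ∈ V P, x i = u ∧ x j = z}.Finite) (B : ℝ)
    (hB : ∀ x ∈ V P, B < ‖x i‖ → ‖x j‖ ≤ B) :
    ∃ G ∈ P.comap (sub2 i j), G ≠ 0 ∧ ∀ l, (G.coeff l).natDegree ≤ G.leadingCoeff.natDegree := by
  obtain ⟨b, hb, hgen⟩ := generic P hP i j
  have hKp : (P.comap (sub2 i j)).IsPrime := Ideal.comap_isPrime _ _
  by_cases hbot : P.comap (sub2 i j) = ⊥
  · exfalso
    rw [hbot] at hb hgen
    have hb0 : b ≠ 0 := hb
    obtain ⟨u, hu⟩ : ∃ u : ℂ, b.leadingCoeff.eval u ≠ 0 := by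
      by_contra h
      push Not at h
      exact leadingCoeff_ne_zero.2 hb0 (Polynomial.funext (by simpa using h))
    have hbu : b.map (evalRingHom u) ≠ 0 := by
      intro h
      apply hu
      have := congrArg (fun p => coeff p b.natDegree) h
      simpa [coeff_map] using this
    have hinf : {z : ℂ | ¬ (b.map (evalRingHom u)).IsRoot z}.Infinite := by
      have := (finite_setOfPred_isRoot hbu).infinite_compl
      exact this
    apply hinf
    apply (hfin u).subset
    intro z hz
    exact hgen u z (by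
      intro H hH
      rw [Ideal.mem_bot] at hH
      rw [hH, evalEval_zero]) (by
      rw [← map_evalRingHom_eval]
      exact hz)
  obtain ⟨G, hGK, hG⟩ := Ideal.IsPrime.exists_mem_prime_of_ne_bot hKp hbot
  have hdeg : G.natDegree ≠ 0 := by
    intro h
    rw [natDegree_eq_zero] at h
    obtain ⟨R, rfl⟩ := h
    exact hi (const_of P hP i j R (fun h => hG.ne_zero (by rw [h, C_0])) hGK)
  have hdvd : ∀ H ∈ P.comap (sub2 i j), G ∣ H := by
    intro H hH
    by_contra hn
    obtain ⟨R, hR, T, S, hRS⟩ := elim G H hG hdeg hn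
    apply hi
    apply const_of P hP i j R hR
    rw [hRS]
    exact add_mem (Ideal.mul_mem_right _ _ hH) (Ideal.mul_mem_right _ _ hGK)
  have hbG : ¬ G ∣ b := by
    rintro ⟨S, rfl⟩
    exact hb (Ideal.mul_mem_right _ _ hGK)
  obtain ⟨R, hR, T, S, hRS⟩ := elim G b hG hdeg hbG
  have hlift : ∀ u z : ℂ, R.eval u ≠ 0 → evalEval u z G = 0 → ∃ x ∈ V P, x i = u ∧ x j = z := by
    intro u z hu hz
    apply hgen u z
    · intro H hH
      obtain ⟨W, rfl⟩ := hdvd H hH
      rw [evalEval_mul, hz, zero_mul]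
    · intro h
      apply hu
      have := congrArg (evalEval u z) hRS
      rw [evalEval_C, evalEval_add, evalEval_mul, evalEval_mul, h, hz, zero_mul, zero_mul,
        add_zero] at this
      exact this
  refine ⟨G, hGK, hG.ne_zero, ?_⟩
  intro l
  have hlead : G.leadingCoeff ≠ 0 := leadingCoeff_ne_zero.2 hG.ne_zero
  apply growth (G.coeff l) G.leadingCoeff ({u | R.IsRoot u} ∪ {u | G.leadingCoeff.IsRoot u})
    ((finite_setOfPred_isRoot hR).union (finite_setOfPred_isRoot hlead)) B
    (max B 1 ^ G.natDegree * G.natDegree.choose (G.natDegree / 2))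
  intro u hu hBu
  have hu1 : R.eval u ≠ 0 := fun h => hu (Or.inl h)
  have hu2 : G.leadingCoeff.eval u ≠ 0 := fun h => hu (Or.inr h)
  set p : ℂ[X] := G.map (evalRingHom u) with hp
  have hpl : p.leadingCoeff = G.leadingCoeff.eval u := by
    rw [hp, leadingCoeff_map_of_leadingCoeff_ne_zero]
    · rfl
    · exact hu2
  have hpd : p.natDegree = G.natDegree := by
    rw [hp, natDegree_map_of_leadingCoeff_ne_zero]
    exact hu2
  have hp0 : p ≠ 0 := by
    intro h
    rw [h, leadingCoeff_zero] at hpl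
    exact hu2 hpl.symm
  have hmon : (p * C (p.leadingCoeff)⁻¹).Monic := monic_mul_leadingCoeff_inv hp0
  have hnd : (p * C (p.leadingCoeff)⁻¹).natDegree ≤ G.natDegree := by
    rw [natDegree_mul_leadingCoeff_inv p hp0, hpd]
  have hroots : ∀ z ∈ ((p * C (p.leadingCoeff)⁻¹).map (RingHom.id ℂ)).roots, ‖z‖ ≤ B := by
    intro z hz
    rw [Polynomial.map_id, mem_roots hmon.ne_zero, IsRoot, eval_mul, eval_C] at hz
    have hz2 : p.eval z = 0 := by
      rcases mul_eq_zero.1 hz with h | h
      · exact h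
      · exfalso
        rw [hpl] at h
        exact hu2 (inv_eq_zero.1 h)
    rw [hp, map_evalRingHom_eval] at hz2
    obtain ⟨x, hxP, hxi, hxj⟩ := hlift u z hu1 hz2
    rw [← hxj]
    exact hB x hxP (by rw [hxi]; exact hBu)
  have hcoeff := coeff_bdd_of_roots_le (RingHom.id ℂ) hmon (IsAlgClosed.splits _) hnd hroots l
  rw [Polynomial.map_id, coeff_mul_C, norm_mul, norm_inv, hpl, hp, coeff_map] at hcoeff
  have hpos : 0 < ‖G.leadingCoeff.eval u‖ := norm_pos_iff.2 hu2
  rwa [← div_eq_mul_inv, div_le_iff₀ hpos] at hcoeff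

/-- a relation between two of the coordinates -/
theorem of_pair {n : ℕ} {P : Ideal (MvPolynomial (Fin n) ℂ)} {i j k : Fin n} (hjk : j ≠ k)
    (hik : i ≠ k) (h : ∃ F ∈ P, F.vars ⊆ {i, j} ∧
      MvPolynomial.coeff (Finsupp.single i (MvPolynomial.degreeOf i F) +
        Finsupp.single j (MvPolynomial.degreeOf j F)) F ≠ 0) :
    ∃ G ∈ P, G.vars ⊆ {i, j, k} ∧
      MvPolynomial.coeff (Finsupp.single i (MvPolynomial.degreeOf i G) +
        Finsupp.single j (MvPolynomial.degreeOf j G) +
        Finsupp.single k (MvPolynomial.degreeOf k G)) G ≠ 0 := by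
  obtain ⟨F, hF, hv, hc⟩ := h
  refine ⟨F, hF, hv.trans ?_, ?_⟩
  · intro v hv
    simp only [Finset.mem_insert, Finset.mem_singleton] at hv ⊢
    tauto
  · have hk : MvPolynomial.degreeOf k F = 0 := by
      rw [← Nat.le_zero, MvPolynomial.degreeOf_le_iff]
      intro m hm
      by_contra hmk
      rw [Nat.le_zero] at hmk
      have h1 : k ∈ F.vars := (MvPolynomial.mem_vars_iff_mem_support k).2 ⟨m, hm, Finsupp.mem_support_iff.2 hmk⟩
      have h2 := hv h1
      rw [Finset.mem_insert, Finset.mem_singleton] at h2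
      rcases h2 with h2 | h2
      · exact hik h2.symm
      · exact hjk h2.symm
    rw [hk, Finsupp.single_zero, add_zero]
    exact hc

/-- the homogenised relation -/
def tri {n : ℕ} (i j k : Fin n) (a b : ℂ) (G : ℂ[X][X]) : MvPolynomial (Fin n) ℂ :=
  ∑ t ∈ Finset.range (G.natDegree + 1),
    Polynomial.aeval (MvPolynomial.X i : MvPolynomial (Fin n) ℂ) (G.coeff t) *
      (MvPolynomial.X j * MvPolynomial.X k) ^ t *
      (MvPolynomial.C a * MvPolynomial.X k + MvPolynomial.C b * MvPolynomial.X j) ^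
        (G.natDegree - t)

theorem coeff_one {n : ℕ} (i : Fin n) (c : ℂ[X]) (s : ℕ) :
    MvPolynomial.coeff (Finsupp.single i s)
      (Polynomial.aeval (MvPolynomial.X i : MvPolynomial (Fin n) ℂ) c) = c.coeff s := by
  rw [Polynomial.aeval_eq_sum_range, MvPolynomial.coeff_sum]
  have h : ∀ m, MvPolynomial.coeff (Finsupp.single i s)
      (c.coeff m • (MvPolynomial.X i : MvPolynomial (Fin n) ℂ) ^ m) =
        if m = s then c.coeff m else 0 := by
    intro m
    rw [MvPolynomial.coeff_smul, MvPolynomial.coeff_X_pow, smul_eq_mul]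
    by_cases h : m = s
    · rw [if_pos h, if_pos (by rw [h]), mul_one]
    · rw [if_neg h, if_neg, mul_zero]
      intro h'
      exact h (Finsupp.single_injective i h')
  simp only [h, Finset.sum_ite_eq', Finset.mem_range]
  split_ifs with h1
  · rfl
  · exact (coeff_eq_zero_of_natDegree_lt (by omega)).symm

theorem degreeOf_one {n : ℕ} (i v : Fin n) (c : ℂ[X]) :
    MvPolynomial.degreeOf v (Polynomial.aeval (MvPolynomial.X i : MvPolynomial (Fin n) ℂ) c) ≤
      if v = i then c.natDegree else 0 := by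
  rw [Polynomial.aeval_eq_sum_range]
  refine (MvPolynomial.degreeOf_sum_le _ _ _).trans (Finset.sup_le fun m hm => ?_)
  rw [Algebra.smul_def]
  refine (MvPolynomial.degreeOf_C_mul_le _ _ _).trans ?_
  split_ifs with h
  · subst h
    rw [MvPolynomial.degreeOf_X_self_pow]
    rw [Finset.mem_range] at hm
    omega
  · exact (MvPolynomial.degreeOf_X_pow_of_ne m h).le

/-- the degrees of one term -/
theorem degreeOf_term {n : ℕ} (i j k v : Fin n) (hij : i ≠ j) (hjk : j ≠ k) (hik : i ≠ k)
    (a b : ℂ) (c : ℂ[X]) (t r : ℕ) :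
    MvPolynomial.degreeOf v (Polynomial.aeval (MvPolynomial.X i : MvPolynomial (Fin n) ℂ) c *
      (MvPolynomial.X j * MvPolynomial.X k) ^ t *
      (MvPolynomial.C a * MvPolynomial.X k + MvPolynomial.C b * MvPolynomial.X j) ^ r) ≤
      if v = i then c.natDegree else if v = j ∨ v = k then t + r else 0 := by
  have h1 := degreeOf_one i v c
  have h2 : MvPolynomial.degreeOf v ((MvPolynomial.X j * MvPolynomial.X k :
      MvPolynomial (Fin n) ℂ) ^ t) ≤ if v = j ∨ v = k then t else 0 := by
    refine (MvPolynomial.degreeOf_pow_le _ _ _).trans ?_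
    have h3 := MvPolynomial.degreeOf_mul_le v (MvPolynomial.X j : MvPolynomial (Fin n) ℂ)
      (MvPolynomial.X k)
    rw [MvPolynomial.degreeOf_X, MvPolynomial.degreeOf_X] at h3
    by_cases hj : v = j
    · have hk : v ≠ k := fun h => hjk (hj.symm.trans h)
      rw [if_pos hj, if_neg hk] at h3
      rw [if_pos (Or.inl hj)]
      nlinarith
    · by_cases hk : v = k
      · rw [if_neg hj, if_pos hk] at h3
        rw [if_pos (Or.inr hk)]
        nlinarith
      · rw [if_neg hj, if_neg hk] at h3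
        rw [if_neg (by tauto)]
        nlinarith
  have h4 : MvPolynomial.degreeOf v ((MvPolynomial.C a * MvPolynomial.X k +
      MvPolynomial.C b * MvPolynomial.X j : MvPolynomial (Fin n) ℂ) ^ r) ≤
        if v = j ∨ v = k then r else 0 := by
    refine (MvPolynomial.degreeOf_pow_le _ _ _).trans ?_
    have h5 := MvPolynomial.degreeOf_add_le v (MvPolynomial.C a * MvPolynomial.X k :
      MvPolynomial (Fin n) ℂ) (MvPolynomial.C b * MvPolynomial.X j)
    have h6 := MvPolynomial.degreeOf_C_mul_le (MvPolynomial.X k : MvPolynomial (Fin n) ℂ) v a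
    have h7 := MvPolynomial.degreeOf_C_mul_le (MvPolynomial.X j : MvPolynomial (Fin n) ℂ) v b
    rw [MvPolynomial.degreeOf_X] at h6 h7
    by_cases hj : v = j
    · have hk : v ≠ k := fun h => hjk (hj.symm.trans h)
      rw [if_neg hk] at h6
      rw [if_pos hj] at h7
      rw [if_pos (Or.inl hj)]
      have h8 := h5.trans (max_le_max h6 h7)
      rw [max_eq_right (by norm_num)] at h8
      nlinarith
    · rw [if_neg hj] at h7
      by_cases hk : v = k
      · rw [if_pos hk] at h6
        rw [if_pos (Or.inr hk)]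
        have h8 := h5.trans (max_le_max h6 h7)
        rw [max_eq_left (by norm_num)] at h8
        nlinarith
      · rw [if_neg hk] at h6
        rw [if_neg (by tauto)]
        have h8 := h5.trans (max_le_max h6 h7)
        rw [max_self] at h8
        nlinarith
  refine (MvPolynomial.degreeOf_mul_le _ _ _).trans ?_
  refine (add_le_add_left (MvPolynomial.degreeOf_mul_le _ _ _) _).trans ?_
  by_cases hi : v = i
  · have hj : v ≠ j := fun h => hij (hi.symm.trans h)
    have hk : v ≠ k := fun h => hik (hi.symm.trans h)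
    have hjk' : ¬ (v = j ∨ v = k) := by tauto
    rw [if_pos hi] at h1 ⊢
    rw [if_neg hjk'] at h2 h4
    omega
  · rw [if_neg hi] at h1 ⊢
    by_cases hjk' : v = j ∨ v = k
    · rw [if_pos hjk'] at h2 h4 ⊢
      omega
    · rw [if_neg hjk'] at h2 h4 ⊢
      omega

theorem degreeOf_tri {n : ℕ} (i j k v : Fin n) (hij : i ≠ j) (hjk : j ≠ k) (hik : i ≠ k)
    (a b : ℂ) (G : ℂ[X][X]) (A : ℕ) (hA : ∀ l, (G.coeff l).natDegree ≤ A) :
    MvPolynomial.degreeOf v (tri i j k a b G) ≤
      if v = i then A else if v = j ∨ v = k then G.natDegree else 0 := by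
  unfold tri
  refine (MvPolynomial.degreeOf_sum_le _ _ _).trans (Finset.sup_le fun t ht => ?_)
  rw [Finset.mem_range] at ht
  refine (degreeOf_term i j k v hij hjk hik a b (G.coeff t) t (G.natDegree - t)).trans ?_
  split_ifs
  · exact hA t
  · omega
  · exact le_rfl

theorem vars_tri {n : ℕ} (i j k : Fin n) (hij : i ≠ j) (hjk : j ≠ k) (hik : i ≠ k)
    (a b : ℂ) (G : ℂ[X][X]) : (tri i j k a b G).vars ⊆ {i, j, k} := by
  intro v hv
  by_contra hc
  simp only [Finset.mem_insert, Finset.mem_singleton, not_or] at hc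
  have h1 := degreeOf_tri i j k v hij hjk hik a b G
    ((Finset.range (G.natDegree + 1)).sup fun l => (G.coeff l).natDegree) (by
      intro l
      by_cases hl : l ∈ Finset.range (G.natDegree + 1)
      · exact Finset.le_sup (f := fun l => (G.coeff l).natDegree) hl
      · rw [Finset.mem_range] at hl
        rw [coeff_eq_zero_of_natDegree_lt (by omega), natDegree_zero]
        exact Nat.zero_le _)
  rw [if_neg hc.1, if_neg (by tauto), Nat.le_zero] at h1
  obtain ⟨m, hm, hmv⟩ := (MvPolynomial.mem_vars_iff_mem_support v).1 hv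
  have h2 := MvPolynomial.degreeOf_le_iff.1 h1.le m hm
  exact (Finsupp.mem_support_iff.1 hmv) (Nat.le_zero.1 h2)

theorem wh_one {n : ℕ} (i : Fin n) (w : Fin n → ℕ) (hw : w i = 0) (c : ℂ[X]) :
    MvPolynomial.IsWeightedHomogeneous w
      (Polynomial.aeval (MvPolynomial.X i : MvPolynomial (Fin n) ℂ) c) 0 := by
  rw [Polynomial.aeval_eq_sum_range]
  apply MvPolynomial.IsWeightedHomogeneous.sum
  intro m _
  rw [Algebra.smul_def]
  apply MvPolynomial.IsWeightedHomogeneous.C_mul
  have h := (MvPolynomial.isWeightedHomogeneous_X ℂ w i).pow m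
  rw [hw, smul_zero] at h
  exact h

theorem coeff_tri {n : ℕ} (i j k : Fin n) (hij : i ≠ j) (hjk : j ≠ k) (hik : i ≠ k)
    (a b : ℂ) (G : ℂ[X][X]) (A : ℕ) :
    MvPolynomial.coeff (Finsupp.single i A + Finsupp.single j G.natDegree +
      Finsupp.single k G.natDegree) (tri i j k a b G) = G.leadingCoeff.coeff A := by
  unfold tri
  rw [MvPolynomial.coeff_sum, Finset.sum_eq_single G.natDegree]
  · rw [Nat.sub_self, pow_zero, mul_one, mul_pow]
    have h1 : (MvPolynomial.X j : MvPolynomial (Fin n) ℂ) ^ G.natDegree *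
        MvPolynomial.X k ^ G.natDegree =
          MvPolynomial.monomial (Finsupp.single j G.natDegree +
            Finsupp.single k G.natDegree) 1 := by
      rw [MvPolynomial.X_pow_eq_monomial, MvPolynomial.X_pow_eq_monomial,
        MvPolynomial.monomial_mul, mul_one]
    rw [h1, add_assoc, MvPolynomial.coeff_mul_monomial, coeff_one, mul_one]
    rfl
  · intro t ht htC
    rw [Finset.mem_range] at ht
    set w : Fin n → ℕ := fun v => if v = j ∨ v = k then 1 else 0 with hw
    have hwi : w i = 0 := by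
      simp [hw, hij, hik]
    have hwj : w j = 1 := by simp [hw]
    have hwk : w k = 1 := by simp [hw]
    have h1 := wh_one i w hwi (G.coeff t)
    have h2 := ((MvPolynomial.isWeightedHomogeneous_X ℂ w j).mul
      (MvPolynomial.isWeightedHomogeneous_X ℂ w k)).pow t
    have h3 := ((MvPolynomial.isWeightedHomogeneous_X ℂ w k).C_mul a)
    have h4 := ((MvPolynomial.isWeightedHomogeneous_X ℂ w j).C_mul b)
    rw [hwk] at h3
    rw [hwj] at h4
    have h5 := (h3.add h4).pow (G.natDegree - t)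
    have h6 := (h1.mul h2).mul h5
    refine h6.coeff_eq_zero _ ?_
    rw [map_add, map_add, Finsupp.weight_single, Finsupp.weight_single, Finsupp.weight_single,
      hwi, hwj, hwk]
    simp only [smul_eq_mul]
    omega
  · intro h
    exact absurd (Finset.mem_range.2 (Nat.lt_succ_self _)) h

theorem finish3 {n : ℕ} (P : Ideal (MvPolynomial (Fin n) ℂ)) (i j k : Fin n) (hij : i ≠ j)
    (hjk : j ≠ k) (hik : i ≠ k) (a b : ℂ) (G : ℂ[X][X]) (hG : tri i j k a b G ∈ P) (hG0 : G ≠ 0)
    (hd : ∀ l, (G.coeff l).natDegree ≤ G.leadingCoeff.natDegree) :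
    ∃ F ∈ P, F.vars ⊆ {i, j, k} ∧
      MvPolynomial.coeff (Finsupp.single i (MvPolynomial.degreeOf i F) +
        Finsupp.single j (MvPolynomial.degreeOf j F) +
        Finsupp.single k (MvPolynomial.degreeOf k F)) F ≠ 0 := by
  set d0 : Fin n →₀ ℕ := Finsupp.single i (G.leadingCoeff.natDegree) +
    Finsupp.single j G.natDegree + Finsupp.single k G.natDegree with hd0
  have e1 : d0 i = G.leadingCoeff.natDegree := by
    simp [hd0, hij.symm, hik.symm]
  have e2 : d0 j = G.natDegree := by
    simp [hd0, hij, hjk.symm]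
  have e3 : d0 k = G.natDegree := by
    simp [hd0, hik, hjk]
  have h0 : MvPolynomial.coeff d0 (tri i j k a b G) ≠ 0 := by
    rw [hd0, coeff_tri i j k hij hjk hik]
    exact leadingCoeff_ne_zero.2 (leadingCoeff_ne_zero.2 hG0)
  have hs : d0 ∈ (tri i j k a b G).support := MvPolynomial.mem_support_iff.2 h0
  have hle : ∀ v, d0 v ≤ MvPolynomial.degreeOf v (tri i j k a b G) := fun v =>
    MvPolynomial.degreeOf_le_iff.1 le_rfl d0 hs
  have hdeg := fun v => degreeOf_tri i j k v hij hjk hik a b G _ hd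
  have f1 : MvPolynomial.degreeOf i (tri i j k a b G) = G.leadingCoeff.natDegree := by
    apply le_antisymm
    · have := hdeg i
      rwa [if_pos rfl] at this
    · rw [← e1]
      exact hle i
  have f2 : MvPolynomial.degreeOf j (tri i j k a b G) = G.natDegree := by
    apply le_antisymm
    · have := hdeg j
      rwa [if_neg hij.symm, if_pos (Or.inl rfl)] at this
    · rw [← e2]
      exact hle j
  have f3 : MvPolynomial.degreeOf k (tri i j k a b G) = G.natDegree := by
    apply le_antisymm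
    · have := hdeg k
      rwa [if_neg hik.symm, if_pos (Or.inr rfl)] at this
    · rw [← e3]
      exact hle k
  refine ⟨tri i j k a b G, hG, vars_tri i j k hij hjk hik a b G, ?_⟩
  rw [f1, f2, f3]
  exact h0

/-! ### the curve with two more coordinates -/

theorem exists_field {n : ℕ} (P : Ideal (MvPolynomial (Fin n) ℂ)) (hP : P.IsPrime) :
    ∃ (L : Type) (_ : Field L) (Φ : MvPolynomial (Fin n) ℂ →+* L), ∀ F, Φ F = 0 ↔ F ∈ P := by
  have : IsDomain (MvPolynomial (Fin n) ℂ ⧸ P) := Ideal.Quotient.isDomain P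
  refine ⟨FractionRing (MvPolynomial (Fin n) ℂ ⧸ P), inferInstance,
    (algebraMap (MvPolynomial (Fin n) ℂ ⧸ P) _).comp (Ideal.Quotient.mk P), fun F => ?_⟩
  rw [RingHom.comp_apply, map_eq_zero_iff _ (IsFractionRing.injective _ _),
    Ideal.Quotient.eq_zero_iff_mem]

section Loc

variable {n : ℕ} {L : Type} [Field L] (Φ : MvPolynomial (Fin n) ℂ →+* L) (y z : L)

/-- evaluation with two more coordinates -/
def tht : MvPolynomial (Fin (n + 2)) ℂ →+* L :=
  MvPolynomial.eval₂Hom (Φ.comp MvPolynomial.C)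
    (Fin.append (fun v : Fin n => Φ (MvPolynomial.X v)) ![y, z])

theorem tht_C (c : ℂ) : tht Φ y z (MvPolynomial.C c) = Φ (MvPolynomial.C c) := by
  simp [tht]

theorem tht_X (v : Fin n) :
    tht Φ y z (MvPolynomial.X (Fin.castAdd 2 v)) = Φ (MvPolynomial.X v) := by
  simp [tht]

theorem tht_y : tht Φ y z (MvPolynomial.X (Fin.natAdd n 0)) = y := by
  simp [tht]

theorem tht_z : tht Φ y z (MvPolynomial.X (Fin.natAdd n 1)) = z := by
  simp [tht]

theorem tht_rename (F : MvPolynomial (Fin n) ℂ) :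
    tht Φ y z (MvPolynomial.rename (Fin.castAdd 2) F) = Φ F := by
  have h : (tht Φ y z).comp (MvPolynomial.rename (R := ℂ)
      (Fin.castAdd 2 : Fin n → Fin (n + 2))).toRingHom = Φ := by
    apply MvPolynomial.ringHom_ext
    · intro c
      rw [RingHom.comp_apply]
      change tht Φ y z (MvPolynomial.rename (Fin.castAdd 2) (MvPolynomial.C c)) = _
      rw [MvPolynomial.rename_C, tht_C]
    · intro v
      rw [RingHom.comp_apply]
      change tht Φ y z (MvPolynomial.rename (Fin.castAdd 2) (MvPolynomial.X v)) = _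
      rw [MvPolynomial.rename_X, tht_X]
  exact RingHom.congr_fun h F

theorem tht_aeval (i : Fin n) (c : ℂ[X]) :
    tht Φ y z (Polynomial.aeval
      (MvPolynomial.X (Fin.castAdd 2 i) : MvPolynomial (Fin (n + 2)) ℂ) c) =
      Φ (Polynomial.aeval (MvPolynomial.X i : MvPolynomial (Fin n) ℂ) c) := by
  rw [← tht_rename Φ y z]
  congr 1
  have h := Polynomial.aeval_algHom_apply (MvPolynomial.rename (R := ℂ)
    (Fin.castAdd 2 : Fin n → Fin (n + 2))) (MvPolynomial.X i) c
  rw [MvPolynomial.rename_X] at h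
  exact h

/-- the relation -/
theorem tht_sub2 (i j k : Fin n) (a b : ℂ) (G : ℂ[X][X])
    (hℓ : Φ (MvPolynomial.C a * MvPolynomial.X k + MvPolynomial.C b * MvPolynomial.X j) ≠ 0)
    (hy : y = Φ (MvPolynomial.X j * MvPolynomial.X k) /
      Φ (MvPolynomial.C a * MvPolynomial.X k + MvPolynomial.C b * MvPolynomial.X j)) :
    Φ (tri i j k a b G) =
      Φ (MvPolynomial.C a * MvPolynomial.X k + MvPolynomial.C b * MvPolynomial.X j) ^
        G.natDegree * tht Φ y z (sub2 (Fin.castAdd 2 i) (Fin.natAdd n 0) G) := by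
  set ℓ := Φ (MvPolynomial.C a * MvPolynomial.X k + MvPolynomial.C b * MvPolynomial.X j) with hℓd
  unfold tri sub2
  rw [Polynomial.coe_eval₂RingHom, Polynomial.eval₂_eq_sum_range, map_sum, map_sum,
    Finset.mul_sum]
  apply Finset.sum_congr rfl
  intro t ht
  rw [Finset.mem_range] at ht
  rw [map_mul, map_mul, map_mul, map_pow, map_pow, map_pow, tht_y, ← hℓd, hy]
  have h1 : tht Φ (Φ (MvPolynomial.X j * MvPolynomial.X k) / ℓ) z
      ((Polynomial.aeval (MvPolynomial.X (Fin.castAdd 2 i) :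
        MvPolynomial (Fin (n + 2)) ℂ)).toRingHom (G.coeff t)) =
      Φ (Polynomial.aeval (MvPolynomial.X i : MvPolynomial (Fin n) ℂ) (G.coeff t)) :=
    tht_aeval Φ _ z i (G.coeff t)
  rw [h1, div_pow]
  have h2 : ℓ ^ G.natDegree = ℓ ^ (G.natDegree - t) * ℓ ^ t := by
    rw [← pow_add]
    congr 1
    omega
  rw [h2]
  field_simp

end Loc

/-- row N3B -/
theorem n3b (n3a : N3AStmt) : N3BStmt := by
  intro n P hP hdim hB i j k hij hjk hik
  obtain ⟨B, hB⟩ := hB
  -- a constant coordinate
  by_cases hi : ∃ κ : ℂ, (MvPolynomial.X i - MvPolynomial.C κ : MvPolynomial (Fin n) ℂ) ∈ P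
  · obtain ⟨κ, hκ⟩ := hi
    apply of_pair hjk hik
    have h1 : sub2 i j (C (X - C κ)) = MvPolynomial.X i - MvPolynomial.C κ := by
      rw [C_sub, map_sub, sub2_CX, sub2_CC]
    apply finish P i j hij (C (X - C κ))
    · rw [Ideal.mem_comap, h1]
      exact hκ
    · rw [Ne, C_eq_zero]
      exact X_sub_C_ne_zero κ
    · intro l
      rw [leadingCoeff_C, coeff_C]
      split_ifs
      · exact le_rfl
      · simp
  push Not at hi
  by_cases hj : (MvPolynomial.X j : MvPolynomial (Fin n) ℂ) ∈ P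
  · apply of_pair hjk hik
    apply finish P i j hij X
    · rw [Ideal.mem_comap, sub2_X]
      exact hj
    · exact X_ne_zero
    · intro l
      rw [coeff_X, leadingCoeff_X]
      split_ifs
      · exact le_rfl
      · simp
  obtain ⟨a, b, R, δ, ha, hb, hδ, hN⟩ := n3a n P hP hdim i j k hij hjk hik hj
  have hfin0 : ∀ u : ℂ, {x : Fin n → ℂ | x ∈ V P ∧
      MvPolynomial.eval x (MvPolynomial.X i - MvPolynomial.C u) = 0}.Finite := fun u =>
    H49.cf n P hP hdim _ (hi u)
  by_cases hℓ : (MvPolynomial.C a * MvPolynomial.X k + MvPolynomial.C b * MvPolynomial.X j :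
      MvPolynomial (Fin n) ℂ) ∈ P
  · -- the pair `(i, j)`
    apply of_pair hjk hik
    obtain ⟨G, hGK, hG0, hd⟩ := core P hP i j (by
      rintro ⟨κ, hκ⟩
      apply hi κ
      rw [Ideal.mem_comap, C_sub, map_sub, sub2_CX, sub2_CC] at hκ
      exact hκ) (by
      intro u
      apply ((hfin0 u).image (fun x => x j)).subset
      rintro w ⟨x, hx, hxi, hxj⟩
      exact ⟨x, ⟨hx, by simp [hxi]⟩, hxj⟩) (max R 0) (by
      intro x hx hxi
      have h1 := (hN x hx (lt_of_le_of_lt (le_max_left _ _) hxi)).1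
      have h2 := hx _ hℓ
      simp only [map_add, map_mul, MvPolynomial.eval_C, MvPolynomial.eval_X] at h2
      rw [h2, norm_zero] at h1
      have h3 : ‖x j‖ ≤ 0 := by
        by_contra hc
        push Not at hc
        nlinarith
      exact h3.trans (le_max_right _ _))
    exact finish P i j hij G hGK hG0 hd
  -- the general case
  obtain ⟨L, _, Φ, hΦ⟩ := exists_field P hP
  set ℓ : MvPolynomial (Fin n) ℂ :=
    MvPolynomial.C a * MvPolynomial.X k + MvPolynomial.C b * MvPolynomial.X j with hℓd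
  have hΦℓ : Φ ℓ ≠ 0 := fun h => hℓ ((hΦ _).1 h)
  set y : L := Φ (MvPolynomial.X j * MvPolynomial.X k) / Φ ℓ with hy
  set z : L := (Φ ℓ)⁻¹ with hz
  set P' : Ideal (MvPolynomial (Fin (n + 2)) ℂ) := RingHom.ker (tht Φ y z) with hP'
  have hP'p : P'.IsPrime := RingHom.ker_isPrime _
  have hV : ∀ x' ∈ V P', (fun v : Fin n => x' (Fin.castAdd 2 v)) ∈ V P := by
    intro x' hx' F hF
    have h1 : MvPolynomial.rename (Fin.castAdd 2) F ∈ P' := by
      rw [hP', RingHom.mem_ker, tht_rename]
      exact (hΦ F).2 hF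
    have h2 := hx' _ h1
    rw [MvPolynomial.eval_rename] at h2
    exact h2
  have hVz : ∀ x' ∈ V P', x' (Fin.natAdd n 1) *
      (a * x' (Fin.castAdd 2 k) + b * x' (Fin.castAdd 2 j)) = 1 := by
    intro x' hx'
    have h1 : MvPolynomial.X (Fin.natAdd n 1) * MvPolynomial.rename (Fin.castAdd 2) ℓ - 1 ∈
        P' := by
      rw [hP', RingHom.mem_ker, map_sub, map_mul, tht_rename, tht_z, map_one, hz,
        inv_mul_cancel₀ hΦℓ, sub_self]
    have h2 := hx' _ h1
    rw [map_sub, map_mul, map_one, MvPolynomial.eval_X, MvPolynomial.eval_rename, hℓd] at h2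
    simp only [map_add, map_mul, MvPolynomial.eval_C, MvPolynomial.eval_X,
      Function.comp_apply] at h2
    exact sub_eq_zero.1 h2
  have hVy : ∀ x' ∈ V P', x' (Fin.natAdd n 0) *
      (a * x' (Fin.castAdd 2 k) + b * x' (Fin.castAdd 2 j)) =
        x' (Fin.castAdd 2 j) * x' (Fin.castAdd 2 k) := by
    intro x' hx'
    have h1 : MvPolynomial.X (Fin.natAdd n 0) * MvPolynomial.rename (Fin.castAdd 2) ℓ -
        MvPolynomial.rename (Fin.castAdd 2) (MvPolynomial.X j * MvPolynomial.X k) ∈ P' := by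
      rw [hP', RingHom.mem_ker, map_sub, map_mul, tht_rename, tht_rename, tht_y, hy,
        div_mul_cancel₀ _ hΦℓ, sub_self]
    have h2 := hx' _ h1
    rw [map_sub, map_mul, MvPolynomial.eval_X, MvPolynomial.eval_rename,
      MvPolynomial.eval_rename, hℓd] at h2
    simp only [map_add, map_mul, MvPolynomial.eval_C, MvPolynomial.eval_X,
      Function.comp_apply] at h2
    exact sub_eq_zero.1 h2
  obtain ⟨G, hGK, hG0, hd⟩ := core P' hP'p (Fin.castAdd 2 i) (Fin.natAdd n 0) (by
      rintro ⟨κ, hκ⟩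
      apply hi κ
      rw [Ideal.mem_comap, C_sub, map_sub, sub2_CX, sub2_CC, hP', RingHom.mem_ker, map_sub,
        tht_X, tht_C, ← map_sub] at hκ
      exact (hΦ _).1 hκ) (by
      intro u
      apply ((hfin0 u).image (fun x => x j * x k / (a * x k + b * x j))).subset
      rintro w ⟨x', hx', hxi, hxy⟩
      refine ⟨fun v => x' (Fin.castAdd 2 v), ⟨hV x' hx', by simp [hxi]⟩, ?_⟩
      have h1 := hVz x' hx'
      have h2 := hVy x' hx'
      have h3 : a * x' (Fin.castAdd 2 k) + b * x' (Fin.castAdd 2 j) ≠ 0 := by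
        intro h
        rw [h, mul_zero] at h1
        exact zero_ne_one h1
      rw [← hxy]
      exact (eq_div_of_mul_eq h3 h2).symm) (max (max B R) (B / δ)) (by
      intro x' hx' hxi
      have h0 := lt_of_le_of_lt (le_max_left _ _) hxi
      have hBi : B < ‖x' (Fin.castAdd 2 i)‖ := lt_of_le_of_lt (le_max_left _ _) h0
      have hRi : R < ‖x' (Fin.castAdd 2 i)‖ := lt_of_le_of_lt (le_max_right _ _) h0
      have hN' := hN _ (hV x' hx') hRi
      have hB' := hB _ (hV x' hx') i j k hij hjk hik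
      have h1 := hVz x' hx'
      have h2 := hVy x' hx'
      set ll : ℂ := a * x' (Fin.castAdd 2 k) + b * x' (Fin.castAdd 2 j) with hll
      have h3 : ll ≠ 0 := by
        intro h
        rw [h, mul_zero] at h1
        exact zero_ne_one h1
      have h4 : 0 < ‖ll‖ := norm_pos_iff.2 h3
      have h5 : ‖x' (Fin.natAdd n 0)‖ * ‖ll‖ =
          ‖x' (Fin.castAdd 2 j)‖ * ‖x' (Fin.castAdd 2 k)‖ := by
        rw [← norm_mul, ← norm_mul, h2]
      have h6 : ‖x' (Fin.castAdd 2 j)‖ * ‖x' (Fin.castAdd 2 k)‖ * δ ≤ B * ‖ll‖ := by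
        rcases hB' with h | h | h
        · exact absurd hBi (not_lt.2 h)
        · calc ‖x' (Fin.castAdd 2 j)‖ * ‖x' (Fin.castAdd 2 k)‖ * δ
              = ‖x' (Fin.castAdd 2 j)‖ * (δ * ‖x' (Fin.castAdd 2 k)‖) := by ring
            _ ≤ B * ‖ll‖ := mul_le_mul h hN'.2 (by positivity)
                ((norm_nonneg _).trans h)
        · calc ‖x' (Fin.castAdd 2 j)‖ * ‖x' (Fin.castAdd 2 k)‖ * δ
              = ‖x' (Fin.castAdd 2 k)‖ * (δ * ‖x' (Fin.castAdd 2 j)‖) := by ring
            _ ≤ B * ‖ll‖ := mul_le_mul h hN'.1 (by positivity)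
                ((norm_nonneg _).trans h)
      have h7 : ‖x' (Fin.natAdd n 0)‖ ≤ B / δ := by
        rw [le_div_iff₀ hδ]
        have h8 : ‖x' (Fin.natAdd n 0)‖ * δ * ‖ll‖ ≤ B * ‖ll‖ := by
          calc ‖x' (Fin.natAdd n 0)‖ * δ * ‖ll‖ = ‖x' (Fin.natAdd n 0)‖ * ‖ll‖ * δ := by ring
            _ ≤ B * ‖ll‖ := by rw [h5]; exact h6
        exact le_of_mul_le_mul_right h8 h4
      exact h7.trans (le_max_right _ _))
  apply finish3 P i j k hij hjk hik a b G _ hG0 hd
  rw [← hΦ, tht_sub2 Φ y z i j k a b G hΦℓ hy]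
  rw [Ideal.mem_comap, hP', RingHom.mem_ker] at hGK
  rw [hGK, mul_zero]

end

end Pool.Agent.ZP3.H81
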